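import Mathlib
import Pool.Agent.Helper16.MD.Stmts

/-!
# Mean square of the autocorrelations of a periodic function
-/

open Finset Filter
open scoped ComplexConjugate

namespace Pool.Agent.Helper16.MD

lemma aut_add (x y : ℝ) : ee (x + y) = ee x * ee y := by
  unfold ee
  rw [← Complex.exp_add]
  congr 1
  push_cast
  ring

lemma aut_conj (x : ℝ) : conj (ee x) = ee (-x) := by
  unfold ee
  rw [← Complex.exp_conj]
  congr 1
  rw [map_mul, Complex.conj_ofReal, Complex.conj_I]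
  push_cast
  ring

lemma aut_int (n : ℤ) : ee (n : ℝ) = 1 := by
  unfold ee
  rw [Complex.exp_eq_one_iff]
  exact ⟨n, by push_cast; ring⟩

lemma aut_pow (x : ℝ) (n : ℕ) : ee (x * n) = ee x ^ n := by
  unfold ee
  rw [← Complex.exp_nat_mul]
  congr 1
  push_cast
  ring

lemma aut_orth (Λ : ℕ) (hΛ : 1 ≤ Λ) (k : ℤ) :
    ∑ x ∈ range Λ, ee ((k : ℝ) * x / Λ) = if (Λ : ℤ) ∣ k then (Λ : ℂ) else 0 := by
  have hΛ0 : (Λ : ℝ) ≠ 0 := by positivity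
  have e1 : ∀ x : ℕ, ee ((k : ℝ) * x / Λ) = ee ((k : ℝ) / Λ) ^ x := by
    intro x
    rw [← aut_pow]
    congr 1
    ring
  simp_rw [e1]
  split_ifs with h
  · obtain ⟨m, hm⟩ := h
    have e2 : (k : ℝ) / Λ = (m : ℝ) := by
      rw [hm]; push_cast; field_simp
    rw [e2, aut_int]
    simp
  · have e2 : ee ((k : ℝ) / Λ) ≠ 1 := by
      intro hcon
      unfold ee at hcon
      rw [Complex.exp_eq_one_iff] at hcon
      obtain ⟨n, hn⟩ := hcon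
      apply h
      refine ⟨n, ?_⟩
      have hpi : (2 * Real.pi : ℂ) * Complex.I ≠ 0 := Complex.two_pi_I_ne_zero
      have e3 : ((((k : ℝ) / Λ : ℝ)) : ℂ) = n := by
        apply mul_right_cancel₀ hpi
        rw [← hn]
        push_cast
        ring
      have e4 : (k : ℝ) / Λ = n := by exact_mod_cast e3
      rw [div_eq_iff hΛ0] at e4
      have e5 : (k : ℝ) = ((Λ * n : ℤ) : ℝ) := by rw [e4]; push_cast; ring
      exact_mod_cast e5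
    have e3 := mul_geom_sum (ee ((k : ℝ) / Λ)) Λ
    have e4 : ee ((k : ℝ) / Λ) ^ Λ = 1 := by
      rw [← aut_pow, div_mul_cancel₀ _ hΛ0, aut_int]
    rw [e4, sub_self] at e3
    rcases mul_eq_zero.1 e3 with h5 | h5
    · exact absurd (sub_eq_zero.1 h5) e2
    · exact h5

/-- Fourier coefficient -/
noncomputable def autA (Λ : ℕ) (G : ℕ → ℂ) (ξ : ℕ) : ℂ :=
  (∑ s ∈ range Λ, G s * ee (-((ξ : ℝ) * s) / Λ)) / (Λ : ℂ)

lemma aut_per (Λ : ℕ) (G : ℕ → ℂ) (hG : ∀ x, G (x + Λ) = G x) (x : ℕ) : G (x % Λ) = G x := by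
  have h : ∀ (q r : ℕ), G (r + Λ * q) = G r := by
    intro q r
    induction q with
    | zero => simp
    | succ q ih =>
      rw [Nat.mul_succ, ← add_assoc, hG, ih]
  conv_rhs => rw [← Nat.mod_add_div x Λ]
  rw [h]

lemma aut_inv (Λ : ℕ) (G : ℕ → ℂ) (hΛ : 1 ≤ Λ) (hG : ∀ x, G (x + Λ) = G x) (x : ℕ) :
    ∑ ξ ∈ range Λ, autA Λ G ξ * ee ((ξ : ℝ) * x / Λ) = G x := by
  have hΛ0 : (Λ : ℂ) ≠ 0 := by
    have : Λ ≠ 0 := by omega
    exact_mod_cast this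
  have e1 : ∀ ξ : ℕ, autA Λ G ξ * ee ((ξ : ℝ) * x / Λ) =
      (∑ s ∈ range Λ, G s * ee ((((x : ℤ) - s : ℤ) : ℝ) * ξ / Λ)) / (Λ : ℂ) := by
    intro ξ
    unfold autA
    rw [div_mul_eq_mul_div, sum_mul]
    congr 1
    apply sum_congr rfl
    intro s _
    rw [mul_assoc, ← aut_add]
    congr 2
    push_cast
    ring
  simp_rw [e1]
  rw [← sum_div, sum_comm]
  simp_rw [← mul_sum, aut_orth Λ hΛ]
  rw [sum_eq_single (x % Λ)]
  · rw [if_pos]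
    · rw [mul_div_assoc, div_self hΛ0, mul_one, aut_per Λ G hG]
    · have := Nat.mod_add_div x Λ
      refine ⟨(x / Λ : ℕ), ?_⟩
      have h2 : (x : ℤ) = ((x % Λ + Λ * (x / Λ) : ℕ) : ℤ) := by rw [this]
      rw [h2]
      push_cast
      simp
  · intro s hs hne
    rw [if_neg, mul_zero]
    intro hcon
    apply hne
    have h1 := (Int.modEq_iff_dvd.2 hcon : (s : ℤ) ≡ x [ZMOD Λ])
    have h2 := (Int.natCast_modEq_iff.1 h1 : s ≡ x [MOD Λ])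
    have h3 : s % Λ = x % Λ := h2
    rw [Nat.mod_eq_of_lt (mem_range.1 hs)] at h3
    exact h3
  · intro hcon
    exact absurd (mem_range.2 (Nat.mod_lt x (by omega))) hcon

lemma aut_cor (Λ : ℕ) (G : ℕ → ℂ) (hΛ : 1 ≤ Λ) (hG : ∀ x, G (x + Λ) = G x) (a b : ℕ) :
    (∑ x ∈ range Λ, G (x + a) * conj (G (x + b))) / (Λ : ℂ) =
      ∑ ξ ∈ range Λ, ((nu Λ G ξ : ℝ) : ℂ) *
        (ee ((ξ : ℝ) * a / Λ) * ee (-((ξ : ℝ) * b / Λ))) := by
  have hΛ0 : (Λ : ℂ) ≠ 0 := by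
    have : Λ ≠ 0 := by omega
    exact_mod_cast this
  have e1 : ∀ x : ℕ, G (x + a) * conj (G (x + b)) =
      ∑ ξ ∈ range Λ, ∑ η ∈ range Λ, (autA Λ G ξ * conj (autA Λ G η) *
        (ee ((ξ : ℝ) * a / Λ) * ee (-((η : ℝ) * b / Λ)))) *
          ee ((((ξ : ℤ) - η : ℤ) : ℝ) * x / Λ) := by
    intro x
    rw [← aut_inv Λ G hΛ hG (x + a), ← aut_inv Λ G hΛ hG (x + b), map_sum, sum_mul_sum]
    apply sum_congr rfl
    intro ξ _
    apply sum_congr rfl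
    intro η _
    rw [map_mul, aut_conj]
    have e2 : ee ((ξ : ℝ) * ((x + a : ℕ) : ℝ) / Λ) * ee (-((η : ℝ) * ((x + b : ℕ) : ℝ) / Λ)) =
        (ee ((ξ : ℝ) * a / Λ) * ee (-((η : ℝ) * b / Λ))) *
          ee ((((ξ : ℤ) - η : ℤ) : ℝ) * x / Λ) := by
      rw [← aut_add, ← aut_add, ← aut_add]
      congr 1
      push_cast
      ring
    linear_combination (autA Λ G ξ * conj (autA Λ G η)) * e2
  simp_rw [e1]
  rw [sum_comm, sum_div]
  apply sum_congr rfl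
  intro ξ hξ
  rw [sum_comm]
  simp_rw [← mul_sum, aut_orth Λ hΛ]
  rw [sum_eq_single ξ]
  · rw [if_pos (by simp), mul_div_assoc, div_self hΛ0, mul_one]
    have e3 : ((nu Λ G ξ : ℝ) : ℂ) = autA Λ G ξ * conj (autA Λ G ξ) := by
      rw [Complex.mul_conj, Complex.normSq_eq_norm_sq]
      rfl
    rw [e3]
  · intro η hη hne
    rw [if_neg, mul_zero]
    intro hcon
    apply hne
    have h1 := (Int.modEq_iff_dvd.2 hcon : (η : ℤ) ≡ ξ [ZMOD Λ])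
    have h2 := (Int.natCast_modEq_iff.1 h1 : η ≡ ξ [MOD Λ])
    have h3 : η % Λ = ξ % Λ := h2
    rw [Nat.mod_eq_of_lt (mem_range.1 hη), Nat.mod_eq_of_lt (mem_range.1 hξ)] at h3
    exact h3
  · intro hcon
    exact absurd hξ hcon

theorem st_AUT : ST_AUT := by
  intro Λ P H G hΛ hG
  have key : (((∑ h ∈ range H, ∑ h' ∈ range H,
      ‖(∑ x ∈ range Λ, G (x + P * h) * conj (G (x + P * h'))) / (Λ : ℂ)‖ ^ 2 : ℝ)) : ℂ) =
      ((∑ ξ ∈ range Λ, ∑ ξ' ∈ range Λ, nu Λ G ξ * nu Λ G ξ' *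
        ‖∑ h ∈ range H, ee ((P : ℝ) * h * ((ξ : ℝ) - ξ') / Λ)‖ ^ 2 : ℝ) : ℂ) := by
    push_cast
    have e1 : ∀ h h' : ℕ,
        ((‖(∑ x ∈ range Λ, G (x + P * h) * conj (G (x + P * h'))) / (Λ : ℂ)‖ : ℝ) : ℂ) ^ 2 =
        ∑ ξ ∈ range Λ, ∑ η ∈ range Λ, (((nu Λ G ξ : ℝ) : ℂ) * ((nu Λ G η : ℝ) : ℂ)) *
          (ee ((P : ℝ) * h * ((ξ : ℝ) - η) / Λ) * conj (ee ((P : ℝ) * h' * ((ξ : ℝ) - η) / Λ))) := by
      intro h h'
      rw [← Complex.mul_conj', aut_cor Λ G hΛ hG, map_sum, sum_mul_sum]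
      apply sum_congr rfl
      intro ξ _
      apply sum_congr rfl
      intro η _
      rw [map_mul, map_mul, Complex.conj_ofReal, aut_conj, aut_conj, aut_conj]
      have e2 : ee ((ξ : ℝ) * ((P * h : ℕ) : ℝ) / Λ) * ee (-((ξ : ℝ) * ((P * h' : ℕ) : ℝ) / Λ)) *
          (ee (-((η : ℝ) * ((P * h : ℕ) : ℝ) / Λ)) *
            ee (-(-((η : ℝ) * ((P * h' : ℕ) : ℝ) / Λ)))) =
          ee ((P : ℝ) * h * ((ξ : ℝ) - η) / Λ) * ee (-((P : ℝ) * h' * ((ξ : ℝ) - η) / Λ)) := by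
        rw [← aut_add, ← aut_add, ← aut_add, ← aut_add]
        congr 1
        push_cast
        ring
      linear_combination (((nu Λ G ξ : ℝ) : ℂ) * ((nu Λ G η : ℝ) : ℂ)) * e2
    simp_rw [e1]
    have e3 : ∀ ξ η : ℕ, ((‖∑ h ∈ range H, ee ((P : ℝ) * h * ((ξ : ℝ) - η) / Λ)‖ : ℝ) : ℂ) ^ 2 =
        ∑ h ∈ range H, ∑ h' ∈ range H,
          ee ((P : ℝ) * h * ((ξ : ℝ) - η) / Λ) *
            conj (ee ((P : ℝ) * h' * ((ξ : ℝ) - η) / Λ)) := by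
      intro ξ η
      rw [← Complex.mul_conj', map_sum, sum_mul_sum]
    simp_rw [e3, mul_sum]
    calc ∑ h ∈ range H, ∑ h' ∈ range H, ∑ ξ ∈ range Λ, ∑ η ∈ range Λ,
          (((nu Λ G ξ : ℝ) : ℂ) * ((nu Λ G η : ℝ) : ℂ)) *
          (ee ((P : ℝ) * h * ((ξ : ℝ) - η) / Λ) * conj (ee ((P : ℝ) * h' * ((ξ : ℝ) - η) / Λ)))
        = ∑ h ∈ range H, ∑ ξ ∈ range Λ, ∑ h' ∈ range H, ∑ η ∈ range Λ,
          (((nu Λ G ξ : ℝ) : ℂ) * ((nu Λ G η : ℝ) : ℂ)) *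
          (ee ((P : ℝ) * h * ((ξ : ℝ) - η) / Λ) *
            conj (ee ((P : ℝ) * h' * ((ξ : ℝ) - η) / Λ))) := by
          apply sum_congr rfl; intro h _; rw [sum_comm]
      _ = ∑ ξ ∈ range Λ, ∑ h ∈ range H, ∑ h' ∈ range H, ∑ η ∈ range Λ,
          (((nu Λ G ξ : ℝ) : ℂ) * ((nu Λ G η : ℝ) : ℂ)) *
          (ee ((P : ℝ) * h * ((ξ : ℝ) - η) / Λ) *
            conj (ee ((P : ℝ) * h' * ((ξ : ℝ) - η) / Λ))) := by
          rw [sum_comm]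
      _ = ∑ ξ ∈ range Λ, ∑ h ∈ range H, ∑ η ∈ range Λ, ∑ h' ∈ range H,
          (((nu Λ G ξ : ℝ) : ℂ) * ((nu Λ G η : ℝ) : ℂ)) *
          (ee ((P : ℝ) * h * ((ξ : ℝ) - η) / Λ) *
            conj (ee ((P : ℝ) * h' * ((ξ : ℝ) - η) / Λ))) := by
          apply sum_congr rfl; intro ξ _; apply sum_congr rfl; intro h _; rw [sum_comm]
      _ = _ := by
          apply sum_congr rfl; intro ξ _; rw [sum_comm]
  exact_mod_cast key

end Pool.Agent.Helper16.MD
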